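import Mathlib

set_option autoImplicit false

namespace Pool.Agent.Results.MP_250e3d_co.Cex

open SimpleGraph Pointwise

/-- `S* = (S \ {c}) + c`. -/
def star {A : Type} [AddCommGroup A] (S : Set A) (c : A) : Set A := (fun x => x + c) '' (S \ {c})

/-- `K_o = K \ 2K`. -/
def Ko {A : Type} [AddCommGroup A] (K : AddSubgroup A) : Set A :=
  (K : Set A) \ (fun k => 2 • k) '' (K : Set A)

/-- The Cayley graph of `S` is connected, not bipartite and twin-free. -/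
def Nontriv {A : Type} [AddCommGroup A] (S : Set A) : Prop :=
  0 ∉ S ∧ (circulantGraph S).Connected ∧ ¬ (circulantGraph S).Colorable 2 ∧
    Function.Injective (circulantGraph S).neighborSet

def S0 : Finset (ZMod 20) := {1, 2, 3, 5, 7, 9, 11, 13, 15, 17, 18, 19}

def T0 : Finset (ZMod 20) := {1, 3, 5, 7, 8, 9, 11, 12, 13, 15, 17, 19}

theorem hT : star (S0 : Set (ZMod 20)) 10 = T0 := by
  have : ((S0 \ {10}).image fun x => x + 10) = T0 := by decide +kernel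
  rw [← this, star, Finset.coe_image, Finset.coe_sdiff, Finset.coe_singleton]

def σ : Equiv.Perm (ZMod 20) := Equiv.swap 2 10 * Equiv.swap 14 18

theorem hσ : ∀ a b : ZMod 20, (σ a ≠ σ b ∧ (σ a - σ b ∈ T0 ∨ σ b - σ a ∈ T0)) ↔
    (a ≠ b ∧ (a - b ∈ T0 ∨ b - a ∈ T0)) := by decide +kernel

theorem tw : ∀ a b : ZMod 20, (∀ c, (a ≠ c ∧ (a - c ∈ S0 ∨ c - a ∈ S0)) ↔
    (b ≠ c ∧ (b - c ∈ S0 ∨ c - b ∈ S0))) → a = b := by decide +kernel

theorem main : ∃ S : Set (ZMod 20), (∀ x ∈ S, -x ∈ S) ∧ Nontriv S ∧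
    (∃ s : circulantGraph (star S 10) ≃g circulantGraph (star S 10), s 0 = 0 ∧ s 10 ≠ 10) ∧
    ∀ K : AddSubgroup (ZMod 20), (∃ q : ℕ, Odd q ∧ Nat.card K = 2 * q) →
      ¬ ((S \ Ko K) + (AddSubgroup.zmultiples (5 : ZMod 20) : Set (ZMod 20)) ⊆ S ∪ Ko K) := by
  have adj : ∀ a b : ZMod 20, (circulantGraph (S0 : Set (ZMod 20))).Adj a b ↔
      a ≠ b ∧ (a - b ∈ S0 ∨ b - a ∈ S0) := fun a b => Iff.rfl
  refine ⟨S0, (by decide +kernel : ∀ x ∈ S0, -x ∈ S0), ⟨(by decide +kernel : 0 ∉ S0), ?_, ?_, ?_⟩,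
    ?_, ?_⟩
  · have h1 : ∀ a : ZMod 20, ∃ b, (a = b ∨ a ≠ b ∧ (a - b ∈ S0 ∨ b - a ∈ S0)) ∧
        b ≠ 0 ∧ (b - 0 ∈ S0 ∨ 0 - b ∈ S0) := by decide +kernel
    have h2 : ∀ a : ZMod 20, (circulantGraph (S0 : Set (ZMod 20))).Reachable a 0 := fun a => by
      obtain ⟨b, rfl | h, h'⟩ := h1 a
      · exact ((adj _ _).2 h').reachable
      · exact ((adj _ _).2 h).reachable.trans ((adj _ _).2 h').reachable
    exact ⟨fun a b => (h2 a).trans (h2 b).symm⟩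
  · rintro ⟨C⟩
    have a := C.valid ((adj 0 1).2 (by decide +kernel))
    have b := C.valid ((adj 1 2).2 (by decide +kernel))
    have c := C.valid ((adj 0 2).2 (by decide +kernel))
    omega
  · intro a b h
    exact tw a b fun c => by rw [← adj, ← adj]; exact Set.ext_iff.1 h c
  · rw [hT]
    exact ⟨⟨σ, fun {a b} => hσ a b⟩, (by decide +kernel : σ 0 = 0),
      (by decide +kernel : σ 10 ≠ 10)⟩
  · rintro K ⟨q, hq, hK⟩ h
    have h15 : (15 : ZMod 20) ∉ Ko K := fun h15 => by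
      have := (K.addOrderOf_dvd_natCard h15.1)
      rw [hK, (addOrderOf_eq_iff (n := 4) (by norm_num)).2 (by decide +kernel)] at this
      obtain ⟨r, rfl⟩ := hq
      omega
    rcases h ⟨15, ⟨(by decide +kernel : 15 ∈ S0), h15⟩, 5, AddSubgroup.mem_zmultiples _,
      (by decide +kernel : (15 : ZMod 20) + 5 = 0)⟩ with h | h
    · exact (by decide +kernel : 0 ∉ S0) h
    · exact h.2 ⟨0, K.zero_mem, smul_zero _⟩

theorem result : ∃ h : ℕ, 1 ≤ h ∧ ∃ S : Set (ZMod (4 * h)), (∀ x ∈ S, -x ∈ S) ∧ Nontriv S ∧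
    (∃ s : circulantGraph (star S (2 * h : ℕ)) ≃g circulantGraph (star S (2 * h : ℕ)),
      s 0 = 0 ∧ s (2 * h : ℕ) ≠ (2 * h : ℕ)) ∧
    ∀ K : AddSubgroup (ZMod (4 * h)), (∃ q : ℕ, Odd q ∧ Nat.card K = 2 * q) →
      ¬ ((S \ Ko K) + (AddSubgroup.zmultiples (h : ZMod (4 * h)) : Set (ZMod (4 * h))) ⊆
        S ∪ Ko K) :=
  ⟨5, by norm_num, main⟩

end Pool.Agent.Results.MP_250e3d_co.Cex
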